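import Pool.Agent.Helper39.FST.Zm

/-! FIRST, case (B): infinite speed is impossible. -/

set_option autoImplicit false

namespace Pool.Agent.Helper39.FST

open Finset Filter Topology Matrix Pool.Agent.Helper69.RK Pool.Agent.Helper31.EC Pool.Agent.Helper31.EC.Sp
open Pool.Agent.Helper40.EL Pool.Agent.Helper89.LX Pool.Agent.Helper84.MT
open Pool.Agent.Helper49.MD Pool.Agent.Helper36.AM
open Pool.Agent.Helper3.LF (Mon)
open Pool.Agent.Helper38.NSL (NI NHEt)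
open Pool.Agent.Helper29.MX
open Pool.Agent.Helper15.FST
open Pool.Agent.Helper8.CPY (AlE)

noncomputable section

variable {N : ℕ}

/-- two levels near the top exponent of the window `b` -/
theorem exists_levels {E : ℕ → ℕ} {ι : Type} {S : Sp} {t : MSys S N E ι} (hN : 1 ≤ N) {b f δ : ℝ} (hb : 0 < b)
    (hf1 : f < 1) (hbf : 2 * N * b ≤ f) (hf : UL t 1 b = f) (hff : UL t 1 b ≤ UL t f b) (hδ : 0 < δ) :
    ∃ e e' : ℝ, 0 < e' ∧ e' < e ∧ e ≤ f ∧ b ≤ e' ∧ f ≤ N * e ∧ UL t 1 b ≤ UL t e b ∧ UL t e' b < UL t 1 b ∧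
      1 - e' / e < δ := by
  have hN1 : (1 : ℝ) ≤ N := by exact_mod_cast hN
  have hN0 : (0 : ℝ) < N := by linarith
  have hbN : b ≤ N * b := by nlinarith
  have hf0 : 0 < f := by linarith
  have hbf' : b ≤ f := by linarith
  obtain ⟨X, hX⟩ : ∃ X : Set ℝ, X = {e | b ≤ e ∧ e ≤ 1 ∧ UL t 1 b ≤ UL t e b} := ⟨_, rfl⟩
  have hXb : BddBelow X := ⟨b, fun e he => by rw [hX] at he; exact he.1⟩
  have hfX : f ∈ X := by
    rw [hX]
    exact ⟨hbf', hf1.le, hff⟩
  have hlow : ∀ e ∈ X, f ≤ N * e := by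
    intro e he
    rw [hX] at he
    obtain ⟨e1, e2, e3⟩ := he
    rw [← hf]
    exact e3.trans (UL_le t (by linarith) e2 b)
  obtain ⟨x, hx⟩ : ∃ x, x = sInf X := ⟨_, rfl⟩
  have hx1 : f / N ≤ x := by
    rw [hx]
    refine le_csInf ⟨f, hfX⟩ fun e he => ?_
    rw [div_le_iff₀ hN0, mul_comm]
    exact hlow e he
  have hx0 : 0 < x := (div_pos hf0 hN0).trans_le hx1
  obtain ⟨η, e1, e2, e3⟩ : ∃ η : ℝ, 0 < η ∧ η ≤ 1 / 2 ∧ 2 * η ≤ δ := by
    refine ⟨min (1 / 2) (δ / 2), lt_min (by norm_num) (by linarith), min_le_left _ _, ?_⟩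
    have := min_le_right (1 / 2) (δ / 2)
    linarith
  obtain ⟨y, hyX, hy⟩ : ∃ y ∈ X, y < x * (1 + η) := by
    refine exists_lt_of_csInf_lt ⟨f, hfX⟩ ?_
    rw [← hx]
    nlinarith
  obtain ⟨e, heX, hex, hef⟩ : ∃ e ∈ X, e < x * (1 + η) ∧ e ≤ f := by
    rcases le_total y f with h | h
    · exact ⟨y, hyX, hy, h⟩
    · exact ⟨f, hfX, h.trans_lt hy, le_rfl⟩
  have hxe : x ≤ e := by
    rw [hx]
    exact csInf_le hXb heX
  have hee : (1 - η) * x < e := by nlinarith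
  have he' : 0 < (1 - η) * x := mul_pos (by linarith) hx0
  have hbe : b ≤ (1 - η) * x := by
    have h2 : b ≤ 1 / 2 * (f / N) := by
      rw [← mul_div_assoc, le_div_iff₀ hN0]
      linarith
    nlinarith
  have heX' : UL t 1 b ≤ UL t e b := by
    rw [hX] at heX
    exact heX.2.2
  have he1 : e ≤ 1 := hef.trans hf1.le
  refine ⟨e, (1 - η) * x, he', hee, hef, hbe, hlow e heX, heX', ?_, ?_⟩
  · by_contra hc
    rw [not_lt] at hc
    have h2 : (1 - η) * x ∈ X := by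
      rw [hX]
      exact ⟨hbe, by linarith, hc⟩
    have h3 : x ≤ (1 - η) * x := by
      conv_lhs => rw [hx]
      exact csInf_le hXb h2
    nlinarith
  · have he0 : 0 < e := he'.trans hee
    have h2 : (1 - δ) * e < (1 - η) * x := by
      rcases le_total (1 - δ) 0 with h | h
      · nlinarith
      · have h3 : (1 - δ) * e ≤ (1 - δ) * (x * (1 + η)) := mul_le_mul_of_nonneg_left hex.le h
        have h4 : (1 - δ) * (x * (1 + η)) ≤ (1 - 2 * η) * (x * (1 + η)) :=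
          mul_le_mul_of_nonneg_right (by linarith) (by positivity)
        have h5 : (1 - 2 * η) * (x * (1 + η)) < (1 - η) * x := by
          have h6 : 0 < η * η * x := by positivity
          nlinarith
        linarith
    rw [sub_lt_comm, lt_div_iff₀ he0]
    exact h2

section

variable {A : MCl N} {C : ℕ → MCl N} {m v g r κ e0 D : ℕ} {i j : Fin r} {L : Set ℝ} {u h : ℝ → ℝ → ℝ}
  {V : ℝ → ℝ → ℕ → ℝ} {P : (KM N (Fin r)).Pd} {c a w b f δ : ℝ} {S : Sp} {s : MSys S N (lin g) (Fin r)}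

/-- ONE STEP: a zoom, truncated near the top exponent of the window `b`, on an event -/
theorem step (hlev : ROW_LEV) (hlvf : ROW_LVF) (htrv : ROW_TRV) (hrgu : ROW_RGU) (himz : ROW_IMZ) (hn1 : ROW_N1)
    (hn3 : ROW_N3) (hn4 : ROW_N4) (heq : ROW_EQ) (hcst : ROW_CST N) (hC : Okc N A C)
    (hF : FC C m v g r i j L u h V P) (h1 : (1 : ℝ) ∈ L) (haw : a + w = 1) (hst : ∀ m, m < N → STu m) (hN : 1 ≤ N)
    (hκ : 1 ≤ κ)
    (hexh : ∀ (S : Sp) (s : MSys S N (lin κ) (Fin r)) (e c δ : ℝ), 0 < e → e < 1 → 1 - e < δ → 0 ≤ c → c ≤ e →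
      UL s e c < UL s 1 c → ∃ (A : ∀ k, (S.F k).Ω → Prop) (hA : 0 < ul (S.pr A))
        (x : ∀ k, FD ((Sp.im (Pj.id S) A).F k) (Mon N D)), KAd (s.im (Pj.id S) A hA) (rbot _) D c x ∧
          ∀ l, TLb (s.im (Pj.id S) A hA) c l →
            vol (s.im (Pj.id S) A hA).Q D x ≤ H (up1 l ((s.im (Pj.id S) A hA).Q.dg 1)) + δ)
    (hs : Mem C m v g r i j P S s) {U : ℝ} (hUU : U = u 1 c) (Z : Zst s κ c a w U)
    (hW : H (up1 (Lab.ofZ Z.W) (s.Q.dg 1)) ≤ h 1 c) (hCt : C m _ κ r Z.t) (hI : Pool.Agent.Helper29.MX.Inv v Z.t)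
    (he0 : ∀ i, (Z.t.lf i).e ≤ e0) (hWD : Pool.Agent.Helper26.OUT.WDs (fun _ => (κ : ℝ)) Z.t)
    (hb : 0 < b) (hf1 : f < 1) (hbf : 2 * N * b ≤ f) (hf : w * f = u 1 (c + w * b) - u 1 c)
    (hJ : h 1 c - h 1 (c + w * b) ≤ w * f) (hδ : 0 < δ) :
    ∃ (S' : Sp) (t : MSys S' N (lin κ) (Fin r)) (V' : Rsl S') (b' : ℝ), 0 ≤ b' ∧ b' ≤ 1 ∧ b' * f ≤ N * b ∧
      C m S' κ r t ∧ Pool.Agent.Helper29.MX.Inv v t ∧ (∀ i, (t.lf i).e ≤ e0) ∧
      Pool.Agent.Helper26.OUT.WDs (fun _ => (κ : ℝ)) t ∧ Stb 0 t (rbot S') ∧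
      AlE (fun _ t' => H (t'.Q.dg 1) ≤ N - 1 + (h 1 c - h 1 (c + w * b)) / (w * f)) _ t ∧ Ful t D b' δ V' := by
  subst hUU
  have hw := Z.hu
  have hN1 : (1 : ℝ) ≤ N := by exact_mod_cast hN
  have hbN : b ≤ N * b := by nlinarith
  have hf0 : 0 < f := by linarith
  have hbf' : b ≤ f := by linarith
  have hb1 : b ≤ 1 := by linarith
  -- the codimensions of level 1
  have F1 := zoom_eq hC hF h1 haw himz hb.le hb1 hst hκ hn1 hlvf htrv heq hs Z hf0 hf1 hbf' hf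
  have F1' := zoom_eq1 hC hF h1 haw himz hb.le hb1 hst hκ hn1 hlvf htrv heq hs Z hf0 hf1 hbf' hf
  obtain ⟨e, e', he'0, hee, hef, hbe, hfe, hU, hU', hδe⟩ := exists_levels hN hb hf1 hbf F1'.1 F1'.2 hδ
  have he0' : 0 < e := he'0.trans hee
  have he1 : e ≤ 1 := hef.trans hf1.le
  -- the codimensions of level `e`
  have F2 : AlE (fun _ t => f ≤ UL t e b) _ Z.t := by
    intro T p B hB
    have h2 := hrgu N κ r _ Z.t e b he0' he1 hb.le (hbe.trans hee.le) (fun T p B hB => by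
      have h3 := (hlev _ N κ r (Z.t.im p B hB)).2.1 e 1 b he0' he1 le_rfl hb.le (hbe.trans hee.le)
      have h4 := (F1 T p B hB).1
      rw [h4, ← F1'.1] at h3
      exact h3.trans hU) T p B hB
    show f ≤ UL (Z.t.im p B hB) e b
    rw [h2, ← F1'.1]
    exact hU
  -- entropies
  have F3 := zoom_dg hC hF h1 himz hb.le hb1 hcst hn3 hn4 hs Z hW he0' he1
  have F4 : AlE (fun _ t => w * H (t.Q.dg e) ≤ w * (N * e - f) + (h 1 c - h 1 (c + w * b))) _ Z.t := by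
    intro T p B hB
    have h2 := F3 T p B hB
    have h3 := F2 T p B hB
    have h4 := (hlev _ N κ r (Z.t.im p B hB)).2.2.2.1 e b he0' he1 hb.le (hbe.trans hee.le)
    have h5 : w * HL (Z.t.im p B hB) e b ≤ w * (N * e - f) := mul_le_mul_of_nonneg_left (by linarith) hw.le
    show w * H ((Z.t.im p B hB).Q.dg e) ≤ _
    linarith
  have F5 : AlE (fun _ t' => H (t'.Q.dg 1) ≤ N - 1 + (h 1 c - h 1 (c + w * b)) / (w * f)) _ (Z.t.trn e he0' he1) := by
    refine AlE.trn he0' he1 (fun S t ht => ?_) F4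
    have e5 : H ((t.trn e he0' he1).Q.dg 1) = H (t.Q.dg e) / e := by
      have := Pool.Agent.Helper8.CPY.H_dg_chg t.Q 1 he0'
      rw [mul_one] at this
      exact this
    show H ((t.trn e he0' he1).Q.dg 1) ≤ _
    rw [e5, div_le_iff₀ he0']
    have hT : 0 < w * f := mul_pos hw hf0
    obtain ⟨y, hy⟩ : ∃ y, y = (h 1 c - h 1 (c + w * b)) / (w * f) := ⟨_, rfl⟩
    have hy1 : y ≤ 1 := by
      rw [hy, div_le_one hT]
      exact hJ
    have hy2 : h 1 c - h 1 (c + w * b) = y * (w * f) := by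
      rw [hy, div_mul_cancel₀ _ hT.ne']
    rw [← hy]
    have ht' : w * H (t.Q.dg e) ≤ w * (N * e - f) + y * (w * f) := by
      rw [← hy2]
      exact ht
    have h6 : w * H (t.Q.dg e) ≤ w * ((N - 1 + y) * e) := by
      have h7 : 0 ≤ w * ((1 - y) * (f - e)) := mul_nonneg hw.le (mul_nonneg (by linarith) (by linarith))
      nlinarith
    exact le_of_mul_le_mul_left h6 hw
  -- stability
  have F6 : Stb 0 Z.t (rbot _) := by
    intro T p B hB
    have h2 := zoom_up hC hF h1 haw himz le_rfl zero_le_one hn1 hs Z T p B hB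
    have h3 := (hlev _ N κ r (Z.t.im p B hB)).1 0 le_rfl zero_le_one
    have h4 : w * UL (Z.t.im p B hB) 1 0 ≤ 0 := by
      have h5 : w * UL (Z.t.im p B hB) 1 0 ≤ u 1 (c + w * 0) - u 1 c := h2
      rw [mul_zero, add_zero, sub_self] at h5
      exact h5
    have h5 : UL (Z.t.im p B hB) 1 0 ≤ 0 := by
      by_contra hc
      rw [not_le] at hc
      have := mul_pos hw hc
      linarith
    show (N : ℝ) - 0 ≤ volKO (Z.t.im p B hB) (rbot _) 0
    rw [h3] at h5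
    linarith
  have F7 : Stb 0 (Z.t.trn e he0' he1) (rbot _) := Pool.Agent.Helper71.VIS.Stb_trn_zero he0' he1 F6
  -- exhaustion
  have hl5 := (hlev _ N κ r Z.t).2.2.2.2
  have q1 : 0 < e' / e := div_pos he'0 he0'
  have q2 : e' / e < 1 := (div_lt_one he0').2 hee
  have q3 : 0 ≤ b / e := div_nonneg hb.le he0'.le
  have q4 : b / e ≤ e' / e := div_le_div_of_nonneg_right hbe he0'.le
  have h7 := (hl5 e (e' / e) (b / e) he0' he1 q1 q2.le q3 q4).1
  have h8 := (hl5 e 1 (b / e) he0' he1 one_pos le_rfl q3 (q4.trans q2.le)).1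
  rw [mul_div_cancel₀ _ he0'.ne', mul_div_cancel₀ _ he0'.ne'] at h7
  rw [mul_div_cancel₀ _ he0'.ne', mul_one] at h8
  have h9 : UL (Z.t.trn e he0' he1) (e' / e) (b / e) < UL (Z.t.trn e he0' he1) 1 (b / e) := by
    have h10 : e * UL (Z.t.trn e he0' he1) (e' / e) (b / e) < e * UL (Z.t.trn e he0' he1) 1 (b / e) := by
      rw [h7, h8]
      exact hU'.trans_le hU
    exact lt_of_mul_lt_mul_left h10 he0'.le
  obtain ⟨B, hB, x, hx, hv⟩ := hexh _ (Z.t.trn e he0' he1) (e' / e) (b / e) δ q1 q2 hδe q3 q4 h9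
  obtain ⟨V', hV'⟩ := ful_of hx hv
  refine ⟨_, (Z.t.trn e he0' he1).im (Pj.id _) B hB, V', b / e, q3, q4.trans q2.le, ?_,
    hC.im m _ κ r _ (hC.trn m _ κ r _ hCt e he0' he1) _ _ B hB,
    Pool.Agent.Helper3.ENT.inv_im (Pool.Agent.Helper55.INV.inv_trn hI he0' he1) _ B hB, he0,
    (hWD.trn (fun _ => Nat.cast_nonneg κ) e he0' he1).im (fun _ => Nat.cast_nonneg κ) _ B hB,
    Pool.Agent.Helper52.MW.AllE_im F7 _ B hB, F5.im _ B hB, hV'⟩
  rw [div_mul_eq_mul_div, div_le_iff₀ he0']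
  nlinarith

end

/-- **(B) of FIRST**: infinite speed is impossible -/
theorem row_b (N : ℕ) (hlev : ROW_LEV) (hlvf : ROW_LVF) (htrv : ROW_TRV) (hrgu : ROW_RGU) (hexh : ROW_EXH)
    (hkap : ROW_KAP) (himz : ROW_IMZ) (hn1 : ROW_N1) (hn3 : ROW_N3) (hn4 : ROW_N4) (heq : ROW_EQ) (hzex : ROW_ZEX N)
    (hcst : ROW_CST N) (hnum : ROW_NUM N) (hlim : ROW_LIMJ N) (hns : NSLJ N) : ROW_B N := by
  intro A C hC hst m v g r i j L u h V P hg hN hST hF c a q hL
  have hN1 : (1 : ℝ) ≤ N := by exact_mod_cast hN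
  have hN0 : (0 : ℝ) < N := by linarith
  obtain ⟨n1, n2, -⟩ := hnum A C hC hst m v g r i j L u h V P hg hN hF hL.rat
  have h1 : (1 : ℝ) ∈ L := by
    have := hL.rat 1 (by norm_num) (by norm_num)
    rwa [Rat.cast_one] at this
  obtain ⟨S, s, hs⟩ := exists_mem hF
  have hc0 := hL.c0
  have hca := hL.ca
  have ha1 := hL.a1
  obtain ⟨a', haa, ha'1⟩ := exists_rat_btwn ha1
  have ha'0 : (0 : ℝ) < a' := by linarith
  have ha'L : (a' : ℝ) ∈ L := hL.rat a' ha'0 ha'1.le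
  have hca' : c < a' := by linarith
  -- the codimension of level `a'`
  have hu : u a' c = u 1 c := by
    have h2 := (hlev S N g r s).2.1 a a' c (by linarith) haa.le ha'1.le hc0.le hca
    have h3 := (hlev S N g r s).2.1 a' 1 c ha'0 ha'1.le le_rfl hc0.le hca'.le
    rw [hF.ul S s hs a hL.aL (by linarith) ha1.le c hc0.le hca, hF.ul S s hs a' ha'L ha'0 ha'1.le c hc0.le hca'.le,
      hL.ua] at h2
    rw [hF.ul S s hs a' ha'L ha'0 ha'1.le c hc0.le hca'.le, hF.ul S s hs 1 h1 one_pos le_rfl c hc0.le (by linarith)] at h3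
    exact le_antisymm h3 h2
  have hU : (a' : ℝ) * (N - V a' c N) = u 1 c := by
    rw [← hu, ← hF.ul S s hs a' ha'L ha'0 ha'1.le c hc0.le hca'.le, UL_eq s ha'0 ha'1.le,
      ← hF.pf S s hs a' ha'L ha'0 ha'1.le c hc0.le hca'.le N le_rfl, Pool.Agent.Helper7.RD.volP_self]
  -- the zoom
  obtain ⟨κ, hκ, hz⟩ := hzex A C hC hst v m g r i j c hg hc0
  obtain ⟨w, hw⟩ : ∃ w : ℝ, w = 1 - a' := ⟨_, rfl⟩
  have hw0 : 0 < w := by linarith
  have haw : (a' : ℝ) + w = 1 := by linarith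
  have hz2 := hz S s hs.1 c a' w (V a' c) le_rfl hca' hw0 haw.le fun h0 h1 T p B hB jj hj =>
    hF.pf _ _ (mem_im hC hF.cls hs p B hB) a' ha'L h0 h1 c hc0.le hca'.le jj hj
  obtain ⟨Z, hK, hCt, hI, hdim, hWD⟩ := hz2
  have hW : H (up1 (Lab.ofZ Z.W) (s.Q.dg 1)) ≤ h 1 c := by
    have h2 := (hkap N g r i j S s hs.1.2 c (Lab.ofZ Z.W) hc0.le (by linarith) hK).2 1 one_pos le_rfl
    rwa [hF.hl S s hs 1 h1 one_pos le_rfl c hc0.le (by linarith)] at h2
  obtain ⟨e0, he0⟩ : ∃ e0 : ℕ, ∀ i, (Z.t.lf i).e ≤ e0 :=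
    ⟨Finset.univ.sup fun i => (Z.t.lf i).e, fun i => Finset.le_sup (f := fun i => (Z.t.lf i).e) (Finset.mem_univ i)⟩
  obtain ⟨D, hD, hex⟩ := hexh N κ r hκ hN hst
  -- small windows
  have hsm : ∀ ε : ℝ, 0 < ε → ∃ x : ℝ, 0 < x ∧ x < w ∧ 0 < u 1 (c + x) - u 1 c ∧ u 1 (c + x) - u 1 c < w ∧
      x / (u 1 (c + x) - u 1 c) < ε ∧ (h 1 c - h 1 (c + x)) / (u 1 (c + x) - u 1 c) < q + ε := by
    intro ε hε
    have t1 : ∀ᶠ x : ℝ in 𝓝[>] 0, x / (u 1 (c + x) - u 1 c) < ε := hL.tp.eventually (gt_mem_nhds hε)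
    have t2 : ∀ᶠ x : ℝ in 𝓝[>] 0, (h 1 c - h 1 (c + x)) / (u 1 (c + x) - u 1 c) < q + ε :=
      hL.tq.eventually (gt_mem_nhds (by linarith))
    have t3 : ∀ᶠ x : ℝ in 𝓝[>] 0, x ∈ Set.Ioo (0 : ℝ) w := Ioo_mem_nhdsGT hw0
    have hmap : Tendsto (fun x : ℝ => c + x) (𝓝[>] 0) (𝓝[>] c) := by
      apply tendsto_nhdsWithin_iff.2
      constructor
      · have h2 : Tendsto (fun x : ℝ => c + x) (𝓝 0) (𝓝 (c + 0)) := tendsto_const_nhds.add tendsto_id
        rw [add_zero] at h2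
        exact h2.mono_left nhdsWithin_le_nhds
      · filter_upwards [self_mem_nhdsWithin] with x hx
        have : (0 : ℝ) < x := hx
        show c < c + x
        linarith
    have hcont : Tendsto (fun x : ℝ => u 1 (c + x)) (𝓝[>] 0) (𝓝 (u 1 c)) := by
      have h2 : Tendsto (u 1) (𝓝[>] c) (𝓝 (u 1 c)) := n1 c hc0.le (by linarith)
      exact h2.comp hmap
    have t4 : ∀ᶠ x : ℝ in 𝓝[>] 0, u 1 (c + x) < u 1 c + w := hcont.eventually (gt_mem_nhds (by linarith))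
    obtain ⟨x, x1, x2, x3, x4⟩ := (t1.and (t2.and (t3.and t4))).exists
    have x5 := n2 a' ha'L c (c + x) ha'0 ha'1 hc0.le hca'.le (by linarith [x3.1]) (by linarith [x3.2]) hu
    have x6 : min (c + x - c) (1 - (a' : ℝ)) = x := by
      rw [add_sub_cancel_left]
      exact min_eq_left (by linarith [x3.2])
    rw [x6] at x5
    have x7 : 0 < (N : ℝ) * x := mul_pos hN0 x3.1
    exact ⟨x, x3.1, x3.2, by linarith, by linarith, x1, x2⟩
  -- the systems
  have hq0 := hL.q0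
  have hq1 := hL.q1
  have hstep : ∀ ε : ℝ, 0 < ε → ∃ (S' : Sp) (t : MSys S' N (lin κ) (Fin r)) (V' : Rsl S') (b' : ℝ), 0 ≤ b' ∧
      b' ≤ 1 ∧ b' ≤ ε ∧ C m S' κ r t ∧ Pool.Agent.Helper29.MX.Inv v t ∧ (∀ i, (t.lf i).e ≤ e0) ∧
      Pool.Agent.Helper26.OUT.WDs (fun _ => (κ : ℝ)) t ∧ Stb 0 t (rbot S') ∧
      AlE (fun _ t' => H (t'.Q.dg 1) ≤ N - 1 + q + ε) _ t ∧ Ful t D b' ε V' := by
    intro ε hε
    obtain ⟨ε', k1, k2, k3, k4, k5⟩ : ∃ ε' : ℝ, 0 < ε' ∧ 2 * N * ε' ≤ 1 ∧ N * ε' ≤ ε ∧ ε' ≤ ε ∧ ε' ≤ 1 - q := by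
      refine ⟨min (min (1 / (2 * N)) (ε / N)) (min ε (1 - q)), lt_min (lt_min (by positivity) (by positivity))
        (lt_min hε (by linarith)), ?_, ?_, ?_, ?_⟩
      · have h2 := (min_le_left (min (1 / (2 * (N : ℝ))) (ε / N)) (min ε (1 - q))).trans (min_le_left _ _)
        rw [le_div_iff₀ (by positivity)] at h2
        linarith
      · have h2 := (min_le_left (min (1 / (2 * (N : ℝ))) (ε / N)) (min ε (1 - q))).trans (min_le_right _ _)
        rw [le_div_iff₀ hN0] at h2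
        linarith
      · exact (min_le_right _ _).trans (min_le_left _ _)
      · exact (min_le_right _ _).trans (min_le_right _ _)
    obtain ⟨x, x1, x2, x3, x4, x5, x6⟩ := hsm ε' k1
    obtain ⟨t, ht⟩ : ∃ t, t = u 1 (c + x) - u 1 c := ⟨_, rfl⟩
    rw [← ht] at x3 x4 x5 x6
    have hwb : w * (x / w) = x := mul_div_cancel₀ x hw0.ne'
    have hwf : w * (t / w) = t := mul_div_cancel₀ t hw0.ne'
    rw [div_lt_iff₀ x3] at x5 x6
    have y1 : 2 * N * (x / w) ≤ t / w := by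
      rw [← mul_div_assoc]
      refine div_le_div_of_nonneg_right ?_ hw0.le
      nlinarith
    have y2 : w * (t / w) = u 1 (c + w * (x / w)) - u 1 c := by rw [hwb, hwf, ht]
    have y3 : h 1 c - h 1 (c + w * (x / w)) ≤ w * (t / w) := by
      rw [hwb, hwf]
      nlinarith
    obtain ⟨S', t', V', b', z1, z2, z3, z4, z5, z6, z7, z8, z9, z10⟩ := step (δ := ε) hlev hlvf htrv hrgu himz hn1 hn3
      hn4 heq hcst hC hF h1 haw hst hN hκ (hex D le_rfl) hs hU Z hW hCt hI he0 hWD (div_pos x1 hw0)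
      ((div_lt_one hw0).2 x4) y1 y2 y3 hε
    refine ⟨S', t', V', b', z1, z2, ?_, z4, z5, z6, z7, z8, ?_, z10⟩
    · have h2 : b' * t ≤ N * x := by
        have h3 : b' * (t / w) * w ≤ N * (x / w) * w := mul_le_mul_of_nonneg_right z3 hw0.le
        have e3 : b' * (t / w) * w = b' * t := by field_simp
        have e4 : (N : ℝ) * (x / w) * w = N * x := by field_simp
        rw [e3, e4] at h3
        exact h3
      have h3 : b' * t ≤ ε * t := by
        have h4 : (N : ℝ) * x ≤ N * (ε' * t) := mul_le_mul_of_nonneg_left x5.le hN0.le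
        have h5 : (N : ℝ) * ε' * t ≤ ε * t := mul_le_mul_of_nonneg_right k3 x3.le
        nlinarith
      exact le_of_mul_le_mul_right h3 x3
    · refine AlE.mono (fun S'' t'' ht'' => ?_) z9
      refine ht''.trans ?_
      rw [hwb, hwf]
      have h2 : (h 1 c - h 1 (c + x)) / t ≤ q + ε := by
        rw [div_le_iff₀ x3]
        have : (q + ε') * t ≤ (q + ε) * t := mul_le_mul_of_nonneg_right (by linarith) x3.le
        linarith
      linarith
  -- the limit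
  have hε0 : ∀ k : ℕ, (0 : ℝ) < 1 / ((k : ℝ) + 1) := fun k => by positivity
  choose S' t V' b' z1 z2 z3 z4 z5 z6 z7 z8 z9 z10 using fun k : ℕ => hstep (1 / ((k : ℝ) + 1)) (hε0 k)
  have hlim0 : Tendsto (fun k : ℕ => 1 / ((k : ℝ) + 1)) atTop (𝓝 0) := tendsto_one_div_add_atTop_nhds_zero_nat
  have hgam : ∀ b : ℝ, 0 ≤ b → gam (fun _ : Fin N => (0 : ℝ)) b = 0 := by
    intro b hb
    unfold gam
    simp only [min_eq_left hb, Finset.sum_const_zero]
  obtain ⟨S₁, T₁, V₁, hJT, hFul⟩ := hlim A C hC hst v m κ r e0 D (fun _ => 0) (1 - q) b'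
    (fun k : ℕ => 1 / ((k : ℝ) + 1)) hκ hD (fun k => ⟨z1 k, z2 k⟩)
    (squeeze_zero z1 z3 hlim0) (fun k => (hε0 k).le) hlim0 S' t V' z4 z5 z6 z7
    (fun k T p B hB => ⟨by
      have h2 := z9 k T p B hB
      have h3 : H (((t k).im p B hB).Q.dg 1) ≤ N - 1 + q + 1 / ((k : ℝ) + 1) := h2
      rw [hgam 1 zero_le_one]
      linarith, fun b hb _ => by
      rw [hgam b hb]
      have h2 := VV.H_dg_le ((t k).im p B hB).Q hb
      linarith [(hε0 k).le]⟩)
    (fun k b hb _ => by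
      rw [hgam b hb.le]
      exact nhb_stb (z8 k) (by linarith [(hε0 k).le]) b) z10
  have hr : 0 < r := i.pos
  have hv : (v : ℝ) < N := by
    have h2 := ud_le hJT.inv
    have h3 : H (T₁.Q.dg 1) ≤ N - gam (fun _ : Fin N => (0 : ℝ)) 1 - (1 - q) := by
      have h4 : AllE (fun _ t _ => H (t.Q.dg 1) ≤ N - gam (fun _ : Fin N => (0 : ℝ)) 1 - (1 - q)) S₁ T₁ (rbot S₁) :=
        hJT.dfc
      exact Pool.Agent.Helper52.MW.AllE_self h4
    rw [hgam 1 zero_le_one] at h3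
    linarith
  exact hns A C hC hst v hST m κ r e0 (fun _ => 0) (1 - q) hκ hr hN (by linarith) (fun _ => ⟨le_rfl, one_pos⟩)
    (fun b hb _ => by
      rw [hgam b hb.le]
      exact mul_pos (by linarith) hb) S₁ T₁ hJT D V₁ hD hFul

end

end Pool.Agent.Helper39.FST
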