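import Pool.Agent.Helper39.FST.Bas

/-! FIRST, case (B), part 2: the numbers of a zoom of full length (`a + w = 1`) at a window whose hull is complete at the
level `a`, on all events: codimensions of level 1, least entropies, levels near the top exponent. -/

set_option autoImplicit false

namespace Pool.Agent.Helper39.FST

open Finset Filter Topology Matrix Pool.Agent.Helper69.RK Pool.Agent.Helper31.EC Pool.Agent.Helper31.EC.Sp
open Pool.Agent.Helper40.EL Pool.Agent.Helper89.LX Pool.Agent.Helper84.MT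
open Pool.Agent.Helper49.MD Pool.Agent.Helper36.AM
open Pool.Agent.Helper3.LF (Mon)
open Pool.Agent.Helper38.NSL (NI NHEt)
open Pool.Agent.Helper29.MX
open Pool.Agent.Helper15.FST
open Pool.Agent.Helper8.CPY (AlE)

noncomputable section

variable {N : ℕ} {A : MCl N} {C : ℕ → MCl N} {m v g r κ : ℕ} {i j : Fin r} {L : Set ℝ} {u h : ℝ → ℝ → ℝ}
  {V : ℝ → ℝ → ℕ → ℝ} {P : (KM N (Fin r)).Pd} {c a w b : ℝ} {S : Sp} {s : MSys S N (lin g) (Fin r)}

/-- predicates of systems do not see equalities of pairs (space, system) -/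
theorem sig_pred {E : ℕ → ℕ} {ι : Type} (Q : ∀ S : Sp, MSys S N E ι → Prop) {S T : Sp} {s : MSys S N E ι}
    {t : MSys T N E ι} (e : (⟨S, s⟩ : Σ S : Sp, MSys S N E ι) = ⟨T, t⟩) (hs : Q S s) : Q T t := by
  cases e
  exact hs

section

variable (hC : Okc N A C) (hF : FC C m v g r i j L u h V P) (h1 : (1 : ℝ) ∈ L) (haw : a + w = 1)
  (himz : ROW_IMZ) (hb0 : 0 ≤ b) (hb1 : b ≤ 1)

theorem cw_le {U : ℝ} (Z : Zst s κ c a w U) (hb0 : 0 ≤ b) (hb1 : b ≤ 1) : 0 ≤ c + w * b ∧ c + w * b ≤ 1 := by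
  have hw := Z.hu
  have hc := Z.h0
  have h2 := Z.h1
  constructor
  · positivity
  · nlinarith

include hC hF h1 haw himz hb0 hb1

/-- the codimensions of level 1 of the zoom, on all events -/
theorem zoom_up (hn1 : ROW_N1) (hs : Mem C m v g r i j P S s) (Z : Zst s κ c a w (u 1 c)) :
    AlE (fun _ t => w * UL t 1 b ≤ u 1 (c + w * b) - u 1 c) _ Z.t := by
  intro T p B hB
  obtain ⟨T', p', B', hB', Z', e1, -⟩ := himz S N g r κ s c a w _ Z T p B hB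
  have h2 := hn1 _ N g r κ _ c a w _ Z' 1 b one_pos le_rfl hb0 hb1
  have hm := mem_im hC hF.cls hs p' B' hB'
  have h3 := cw_le Z hb0 hb1
  rw [mul_one, haw, hF.ul _ _ hm 1 h1 one_pos le_rfl _ h3.1 h3.2] at h2
  exact sig_pred (fun _ t => w * UL t 1 b ≤ u 1 (c + w * b) - u 1 c) e1 h2

/-- if the codimension is less than one in the unit of the zoom, it is exact -/
theorem zoom_eq1 (hst : ∀ m, m < N → STu m) (hκ : 1 ≤ κ) (hn1 : ROW_N1) (hlvf : ROW_LVF) (htrv : ROW_TRV)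
    (heq : ROW_EQ) (hs : Mem C m v g r i j P S s) (Z : Zst s κ c a w (u 1 c)) {f : ℝ} (hf0 : 0 < f) (hf1 : f < 1)
    (hbf : b ≤ f) (hf : w * f = u 1 (c + w * b) - u 1 c) : UL Z.t 1 b = f ∧ UL Z.t 1 b ≤ UL Z.t f b := by
  have hw := Z.hu
  have h2 := zoom_up hC hF h1 haw himz hb0 hb1 hn1 hs Z
  rw [← hf] at h2
  have h3 : UL Z.t 1 b ≤ UL Z.t f b := htrv N κ r hκ hst _ Z.t f b hf0 hf1 hb0 hbf fun T p B hB =>
    le_of_mul_le_mul_left (h2 T p B hB) hw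
  obtain ⟨D, hD, h4⟩ := hlvf N κ r hκ hst
  obtain ⟨y, y1, y2, y3⟩ := h4 _ Z.t f b hf0 hf1 hb0 hbf h3
  have h5 := heq S N g r κ s c a w _ Z b (1 - f) hb0 hb1 (by linarith) (by linarith) D hD y y1 y2 y3
  have h6 := cw_le Z hb0 hb1
  rw [hF.ul _ _ hs 1 h1 one_pos le_rfl _ h6.1 h6.2] at h5
  refine ⟨mul_left_cancel₀ hw.ne' (by linarith), h3⟩

/-- the same on all events -/
theorem zoom_eq (hst : ∀ m, m < N → STu m) (hκ : 1 ≤ κ) (hn1 : ROW_N1) (hlvf : ROW_LVF) (htrv : ROW_TRV)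
    (heq : ROW_EQ) (hs : Mem C m v g r i j P S s) (Z : Zst s κ c a w (u 1 c)) {f : ℝ} (hf0 : 0 < f) (hf1 : f < 1)
    (hbf : b ≤ f) (hf : w * f = u 1 (c + w * b) - u 1 c) :
    AlE (fun _ t => UL t 1 b = f ∧ UL t 1 b ≤ UL t f b) _ Z.t := by
  intro T p B hB
  obtain ⟨T', p', B', hB', Z', e1, -⟩ := himz S N g r κ s c a w _ Z T p B hB
  have hm := mem_im hC hF.cls hs p' B' hB'
  have h2 := zoom_eq1 hC hF h1 haw himz hb0 hb1 hst hκ hn1 hlvf htrv heq hm Z' hf0 hf1 hbf hf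
  exact sig_pred (fun _ t => UL t 1 b = f ∧ UL t 1 b ≤ UL t f b) e1 h2

omit hC haw himz in
/-- the entropy of the digits of the zoom -/
theorem zoom_dg1 (hn3 : ROW_N3) (hn4 : ROW_N4) (hs : Mem C m v g r i j P S s) (Z : Zst s κ c a w (u 1 c))
    (hW : H (up1 (Lab.ofZ Z.W) (s.Q.dg 1)) ≤ h 1 c) {e : ℝ} (he0 : 0 < e) (he1 : e ≤ 1) :
    w * H (Z.t.Q.dg e) ≤ w * HL Z.t e b + (h 1 c - h 1 (c + w * b)) := by
  have hw := Z.hu
  have h6 := cw_le Z hb0 hb1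
  have h2 : H (Z.t.Q.dg e) - (h 1 c - h 1 (c + w * b)) / w ≤ HL Z.t e b := by
    refine le_HL fun l hl => ?_
    have h3 := (hn3 S N g r κ s c a w _ Z b hb0 hb1 l hl).1
    have h4 := (hn4 S N g r κ s c a w _ Z e he0 he1).1 l
    have h5 := HL_le (e := 1) h3
    rw [hF.hl S s hs 1 h1 one_pos le_rfl _ h6.1 h6.2] at h5
    have h7 : H (Z.t.Q.dg e) - H (up1 l (Z.t.Q.dg e)) ≤ (h 1 c - h 1 (c + w * b)) / w := by
      rw [le_div_iff₀ hw, mul_comm]
      linarith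
    linarith
  have h8 : H (Z.t.Q.dg e) - HL Z.t e b ≤ (h 1 c - h 1 (c + w * b)) / w := by linarith
  rw [le_div_iff₀ hw] at h8
  linarith

omit haw in
/-- the same on all events -/
theorem zoom_dg (hcst : ROW_CST N) (hn3 : ROW_N3) (hn4 : ROW_N4) (hs : Mem C m v g r i j P S s)
    (Z : Zst s κ c a w (u 1 c)) (hW : H (up1 (Lab.ofZ Z.W) (s.Q.dg 1)) ≤ h 1 c) {e : ℝ} (he0 : 0 < e) (he1 : e ≤ 1) :
    AlE (fun _ t => w * H (t.Q.dg e) ≤ w * HL t e b + (h 1 c - h 1 (c + w * b))) _ Z.t := by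
  intro T p B hB
  obtain ⟨T', p', B', hB', Z', e1, e2⟩ := himz S N g r κ s c a w _ Z T p B hB
  have hm := mem_im hC hF.cls hs p' B' hB'
  have hc1 : c ≤ 1 := by linarith [Z.h1, Z.hu]
  have h3 := hcst C m v g r i j L u h V P hF S s hs 1 h1 one_pos le_rfl c Z.h0 hc1 Z.W Z.tlb hW T' p' B' hB'
  have e3 : Z'.W = Z.W := funext e2
  have h4 : H (up1 (Lab.ofZ Z'.W) ((s.im p' B' hB').Q.dg 1)) ≤ h 1 c := by
    rw [e3]
    exact h3.2
  have h5 := zoom_dg1 hF h1 hb0 hb1 hn3 hn4 hm Z' h4 he0 he1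
  exact sig_pred (fun _ t => w * H (t.Q.dg e) ≤ w * HL t e b + (h 1 c - h 1 (c + w * b))) e1 h5

end

end

end Pool.Agent.Helper39.FST
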