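import Pool.Agent.Helper15.FST.St
import Pool.Agent.Helper55.INV.Trn
import Pool.Agent.Helper8.CPY.AllE
import Pool.Agent.Helper3.ENT.Ent
import Pool.Agent.Helper66.NJ.Cnt
import Pool.Agent.Helper26.OUT.Wl
import Pool.Agent.Helper7.RD.Pf

/-! FIRST, case (B), part 1: codimensions and least entropies of one system, members of robust classes, literal full
labels, transversality of stable systems at all levels. -/

set_option autoImplicit false

namespace Pool.Agent.Helper39.FST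

open Finset Filter Topology Matrix Pool.Agent.Helper69.RK Pool.Agent.Helper31.EC Pool.Agent.Helper31.EC.Sp
open Pool.Agent.Helper40.EL Pool.Agent.Helper89.LX Pool.Agent.Helper84.MT
open Pool.Agent.Helper49.MD Pool.Agent.Helper36.AM
open Pool.Agent.Helper3.LF (Mon)
open Pool.Agent.Helper38.NSL (NI NHEt)
open Pool.Agent.Helper29.MX
open Pool.Agent.Helper15.FST
open Pool.Agent.Helper8.CPY (AlE)

noncomputable section

variable {S T : Sp} {N : ℕ} {E : ℕ → ℕ} {ι : Type}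

/-! ### members -/

theorem mem_im {A : MCl N} {C : ℕ → MCl N} (hC : Okc N A C) {m v g r : ℕ} {i j : Fin r} {P : (KM N (Fin r)).Pd}
    (hP : Cls P) {s : MSys S N (lin g) (Fin r)} (hs : Mem C m v g r i j P S s) (p : Pj T S)
    (B : ∀ k, (T.F k).Ω → Prop) (hB : 0 < ul (T.pr B)) : Mem C m v g r i j P (Sp.im p B) (s.im p B hB) :=
  ⟨⟨⟨hC.im m S g r s hs.1.1.1 T p B hB, Pool.Agent.Helper3.ENT.inv_im hs.1.1.2 p B hB⟩,
    Pool.Agent.Helper3.ENT.Tri.im hs.1.2 p B hB⟩, hP.im S (ob s) hs.2 T p B hB⟩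

theorem exists_mem {C : ℕ → MCl N} {m v g r : ℕ} {i j : Fin r} {L : Set ℝ} {u h : ℝ → ℝ → ℝ}
    {V : ℝ → ℝ → ℕ → ℝ} {P : (KM N (Fin r)).Pd} (hF : FC C m v g r i j L u h V P) :
    ∃ (S : Sp) (s : MSys S N (lin g) (Fin r)), Mem C m v g r i j P S s := by
  obtain ⟨S, x, hx⟩ := hF.cls.ne
  obtain ⟨s, e, hs⟩ := hF.ety S x hx
  exact ⟨S, s, hs, hF.cls.ev S x (ob s) (e.mono fun _ hk => hk.symm) hx⟩

/-! ### codimensions -/

theorem UL_eq (s : MSys S N E ι) {e : ℝ} (h0 : 0 < e) (h1 : e ≤ 1) (c : ℝ) :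
    UL s e c = e * (N - volKO (s.trn e h0 h1) (rbot (S.chg S.tr e h0)) (c / e)) := by
  unfold UL
  rw [dif_pos ⟨h0, h1⟩]

theorem UL_nonneg (s : MSys S N E ι) (e c : ℝ) : 0 ≤ UL s e c := by
  by_cases h : 0 < e ∧ e ≤ 1
  · rw [UL_eq s h.1 h.2]
    exact mul_nonneg h.1.le (sub_nonneg.2 (volKO_le_M _ _ _))
  · unfold UL
    rw [dif_neg h]

theorem UL_le (s : MSys S N E ι) {e : ℝ} (h0 : 0 < e) (h1 : e ≤ 1) (c : ℝ) : UL s e c ≤ N * e := by
  rw [UL_eq s h0 h1, mul_comm (N : ℝ)]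
  exact mul_le_mul_of_nonneg_left (sub_le_self _ (volKO_nonneg _ _ _)) h0.le

/-! ### least entropies -/

theorem tlb_top (s : MSys S N E ι) (c : ℝ) : TLb s c (Lab.ofZ fun _ => ⊤) := by
  intro i
  have e : (fun k => ((Lab.ofZ fun k => (⊤ : Setoid (S.F k).Ω)) k).leak ((s.lf i).win c k)) = fun _ => 0 := by
    funext k
    rw [Lab.ofZ_leak]
    exact h_zero (fc_mono le_top)
  rw [e]
  exact Nul_zero S

theorem HL_le {s : MSys S N E ι} {e c : ℝ} {l : Lab S} (hl : TLb s c l) : HL s e c ≤ H (up1 l (s.Q.dg e)) :=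
  csInf_le ⟨0, by rintro v ⟨l, _, rfl⟩; exact H_nonneg _⟩ ⟨l, hl, rfl⟩

theorem le_HL {s : MSys S N E ι} {e c v : ℝ} (h : ∀ l : Lab S, TLb s c l → v ≤ H (up1 l (s.Q.dg e))) :
    v ≤ HL s e c := by
  refine le_csInf ⟨_, _, tlb_top s c, rfl⟩ ?_
  rintro x ⟨l, hl, rfl⟩
  exact h l hl

/-! ### literal full labels -/

theorem klb_of_kad {s : MSys S N E ι} {R : Rsl S} {D : ℕ} {c : ℝ} {x : ∀ k, FD (S.F k) (Mon N D)}
    (hx : KAd s R D c x) : KLb s R c fun k => (x k).l := ⟨Gau.AdfK.dm _ hx, hx.2⟩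

/-- a form of small volume over type-labels gives a literal full label -/
theorem ful_of [Finite ι] {s : MSys S N E ι} {D : ℕ} {c δ : ℝ} {x : ∀ k, FD (S.F k) (Mon N D)}
    (hx : KAd s (rbot S) D c x) (hv : ∀ l, TLb s c l → vol s.Q D x ≤ H (up1 l (s.Q.dg 1)) + δ) :
    ∃ V : Rsl S, Ful s D c δ V := by
  obtain ⟨Z, G, h1, h2, hO⟩ := Pool.Agent.Helper66.NJ.exists_zFD (gaq s.Q D)
    (Pool.Agent.Helper87.NSL.cndR s (rbot S) c) (rbot S)
  obtain ⟨y, hy⟩ : ∃ y : ∀ k, FD (S.F k) (Mon N D), y = fun k => Pool.Agent.Helper66.NJ.zFD (Z k) (G k) := ⟨_, rfl⟩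
  have hK : KOp s (rbot S) D c y := by
    rw [hy]
    exact hO
  have hl : ∀ k, (y k).l = Lab.ofZ Z k := by
    intro k
    rw [hy]
    rfl
  have h4 : (fun k => (y k).l) = Lab.ofZ Z := funext hl
  have h5 : TLb s c (Lab.ofZ Z) := by
    rw [← h4]
    exact (tlb_iff s c _).1 (klb_of_kad hK.1)
  have h6 : vol s.Q D y ≤ vol s.Q D x := by
    rw [← volK_of_opt hK]
    exact volK_le_of hx
  exact ⟨Z, y, hl, hK.1, h6.trans (hv _ h5)⟩

/-! ### transversality at all levels -/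

theorem cov_refl (s : MSys S N E ι) (c : ℝ) (i : ι) : Pool.Agent.Helper38.NSL.Cov s c i i := by
  unfold Pool.Agent.Helper38.NSL.Cov
  have e : (fun k => h ((s.lf i).win c k) ((s.lf i).win c k)) = fun _ => 0 := funext fun k => h_self _
  rw [e]
  exact Nul_zero S

theorem nhet_stb [Finite ι] {s : MSys S N E ι} (hs : Stb 0 s (rbot S)) (D : ℕ) :
    NHEt s.Q D (Pool.Agent.Helper38.NSL.optW (rbot S) fun i : ι => Pool.Agent.Helper38.NSL.wn s 0 i)
      (Pool.Agent.Helper38.NSL.C3 N D) 0 := by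
  refine Pool.Agent.Helper38.NSL.nhet_of_stab s (rbot S) 0 (fun i : ι => i) (fun i => ⟨i, cov_refl s 0 i⟩) ?_
  intro A hA x hx
  have h1 := hs S (Pj.id S) A hA
  exact h1.trans (volKO_le_of hx)

/-- STABLE SYSTEMS ARE TRANSVERSAL AT ALL LEVELS -/
theorem nhb_stb [Finite ι] {s : MSys S N E ι} (hs : Stb 0 s (rbot S)) {γ : ℝ} (hγ : 0 ≤ γ) (b : ℝ) : NHb s γ b := by
  intro h0 h1 D
  have h2 := nhet_stb (s := s.trn b h0 h1) (Pool.Agent.Helper71.VIS.Stb_trn_zero h0 h1 hs) D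
  exact h2.mono le_rfl (div_nonneg hγ h0.le)

/-! ### unit directions and entropy -/

theorem ud_le {s : MSys S N E ι} {v : ℕ} (hI : Pool.Agent.Helper29.MX.Inv v s) : (v : ℝ) ≤ H (s.Q.dg 1) := by
  obtain ⟨⟨i⟩, hu⟩ := hI
  have h1 : Pool.Agent.Helper8.CPY.UdP v i S s := by
    have h2 : AllE (fun S t _ => Pool.Agent.Helper8.CPY.UdP v i S t) S s (rbot S) := hu i
    exact Pool.Agent.Helper52.MW.AllE_self h2
  have h2 := h1 0 1 le_rfl zero_le_one le_rfl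
  rw [sub_zero, mul_one] at h2
  refine h2.trans ?_
  rw [Pool.Agent.Helper8.CPY.H_dg_eq]
  have h3 := Pool.Agent.Helper3.MX.UB_cell s.Q 1 (fun _ => ⊥)
  simp_rw [h_bot] at h3
  refine ul_mono (Pool.Agent.Helper3.MX.UB_cell s.Q 1 _) h3 (Eventually.of_forall fun k => ?_)
  exact div_le_div_of_nonneg_right (h_le_H _ _) (S.F k).pos.le

end

end Pool.Agent.Helper39.FST
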